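import Pool.Agent.DPL.StmtsC
import Pool.Agent.Helper59_DPS.All
import Pool.Agent.Helper39_DPL.CSC

/-!
# Squad DPL, row GCM: the criterion for weights
-/

namespace Pool.Agent.DPL.H53

open Finset Polynomial Pool.Agent.DPS

theorem inj_range {n k : ℕ} (hn : 2 * k ≤ n) :
    Set.InjOn (y n) (Finset.range (k + 1) : Finset ℕ) := by
  intro a ha b hb hab
  rw [Finset.mem_coe, Finset.mem_range] at ha hb
  rcases Nat.lt_trichotomy a b with h | h | h
  · exact absurd hab (H33.y_lt hn h (by omega)).ne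
  · exact h
  · exact absurd hab (H33.y_lt hn h (by omega)).ne'

theorem eval_int {n k : ℕ} (hn : 2 * k ≤ n) (ν : ℕ → ℝ) {j : ℕ} (hj : j ≤ k) :
    (Lagrange.interpolate (Finset.range (k + 1)) (y n) ν).eval (y n j) = ν j :=
  Lagrange.eval_interpolate_at_node ν (inj_range hn) (Finset.mem_range.2 (by omega))

theorem ip_sum {n k : ℕ} (f : KS n k → ℝ) (s : Finset ℕ) (c : ℕ → ℝ) (g : ℕ → KS n k → ℝ) :
    ip f (∑ l ∈ s, c l • g l) = ∑ l ∈ s, c l * ip f (g l) := by
  unfold ip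
  simp only [Finset.sum_apply, Pi.smul_apply, smul_eq_mul, Finset.mul_sum]
  rw [Finset.sum_comm]
  refine Finset.sum_congr rfl fun l _ => Finset.sum_congr rfl fun F _ => ?_
  ring

theorem ip_int (hIDE : IDEStmt) {n k : ℕ} (hn : 2 * k ≤ n) (ν : ℕ → ℝ) (f : KS n k → ℝ) :
    ip f (aeval (Y n k) (Lagrange.interpolate (Finset.range (k + 1)) (y n) ν) f) =
      ∑ l ∈ Finset.range (k + 1), ν l * lw n k l f := by
  rw [(hIDE n k hn).1, ip_sum]
  refine Finset.sum_congr rfl fun l hl => ?_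
  rw [eval_int hn ν (by rw [Finset.mem_range] at hl; omega)]
  rfl

theorem cs_two {n k t : ℕ} (ht : 1 ≤ t) (htk : t + 2 ≤ k) (hn : 2 * k ≤ n) : 2 ≤ cs n k t := by
  have h := H39.csc n k t (by omega) hn
  have h1 : ∀ s : ℕ, 1 ≤ s → s ≤ k → 2 * k.descFactorial s ≤ n.descFactorial s := by
    intro s hs
    induction s, hs using Nat.le_induction with
    | base =>
      intro _
      rw [Nat.descFactorial_one, Nat.descFactorial_one]
      exact hn
    | succ s hs ih =>
      intro hsk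
      rw [Nat.descFactorial_succ, Nat.descFactorial_succ]
      have h2 := ih (by omega)
      calc 2 * ((k - s) * k.descFactorial s) = (k - s) * (2 * k.descFactorial s) := by ring
        _ ≤ (n - s) * n.descFactorial s := Nat.mul_le_mul (by omega) h2
  have h2 : (2 : ℝ) * (k.descFactorial t : ℝ) ≤ (n.descFactorial t : ℝ) := by
    exact_mod_cast h1 t ht (by omega)
  have h3 : (0 : ℝ) < (k.descFactorial t : ℝ) := by
    exact_mod_cast Nat.descFactorial_pos.2 (by omega)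
  rw [← h] at h2
  exact le_of_mul_le_mul_right h2 h3

theorem gcm (hCER : CERStmt) (hODD : ODDStmt) (hLZE : LZEStmt) (hIDE : IDEStmt) : GCMStmt := by
  intro n k t ht htk hnn μ hμ0 hμ A hA T hT
  have hn : 2 * k ≤ n := H33.two_k_le ht (by omega) hnn
  obtain ⟨s, hs⟩ : ∃ s : ℝ, s = cs n k t := ⟨_, rfl⟩
  have hs2 : 2 ≤ s := by rw [hs]; exact cs_two ht htk hn
  have hs0 : 0 < s := by linarith
  have hc0 : ∀ j l, 0 ≤ cc n k t j l := fun j l => H33.cc_nonneg n k t j l
  obtain ⟨U, hU⟩ : ∃ U : ℝ, U = ∑ l ∈ Finset.Icc 1 t, cc n k t 0 l * μ l := ⟨_, rfl⟩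
  have hU0 : 0 ≤ U := by
    rw [hU]
    refine Finset.sum_nonneg fun l hl => mul_nonneg (hc0 0 l) (hμ0 l ?_)
    rw [Finset.mem_Icc] at hl
    omega
  obtain ⟨W, hW⟩ : ∃ W : ℝ, W = μ 0 + U := ⟨_, rfl⟩
  have hμ00 := hμ0 0 (Nat.zero_le _)
  have hW0 : 0 ≤ W := by rw [hW]; linarith
  obtain ⟨V, hV⟩ : ∃ V : ℝ, V = W / s := ⟨_, rfl⟩
  have hV0 : 0 ≤ V := by rw [hV]; positivity
  have hVs : V * s = W := by rw [hV]; exact div_mul_cancel₀ _ hs0.ne'
  have hsum : s = 1 + ∑ l ∈ Finset.Icc 1 t, cc n k t 0 l := hs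
  -- the two weights
  obtain ⟨ν, hν⟩ : ∃ ν : ℕ → ℝ, ν = fun l => if l = 0 then μ 0 + W else μ l := ⟨_, rfl⟩
  have hν0 : ν 0 = μ 0 + W := by rw [hν]; exact if_pos rfl
  have hν1 : ∀ l, 1 ≤ l → ν l = μ l := by
    intro l hl
    rw [hν]
    exact if_neg (by omega)
  have hcongr : ∀ (ρ : ℕ → ℝ) (j : ℕ), (∀ l, 1 ≤ l → ρ l = μ l) →
      ∑ l ∈ Finset.Icc 1 t, cc n k t j l *
        (Lagrange.interpolate (Finset.range (k + 1)) (y n) ρ).eval (y n l) =
      ∑ l ∈ Finset.Icc 1 t, cc n k t j l * μ l := by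
    intro ρ j hρ
    refine Finset.sum_congr rfl fun l hl => ?_
    rw [Finset.mem_Icc] at hl
    rw [eval_int hn ρ (by omega), hρ l hl.1]
  have hα1 : V * cs n k t = (Lagrange.interpolate (Finset.range (k + 1)) (y n) μ).eval (y n 0) +
      ∑ l ∈ Finset.Icc 1 t, cc n k t 0 l *
        (Lagrange.interpolate (Finset.range (k + 1)) (y n) μ).eval (y n l) := by
    rw [hcongr μ 0 (fun _ _ => rfl), eval_int hn μ (Nat.zero_le _), ← hs, hVs, ← hU, hW]
  have hα2 : (2 * V) * cs n k t =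
      (Lagrange.interpolate (Finset.range (k + 1)) (y n) ν).eval (y n 0) +
      ∑ l ∈ Finset.Icc 1 t, cc n k t 0 l *
        (Lagrange.interpolate (Finset.range (k + 1)) (y n) ν).eval (y n l) := by
    rw [hcongr ν 0 hν1, eval_int hn ν (Nat.zero_le _), ← hs, ← hU, hν0, mul_assoc, hVs, hW]
    ring
  have h1 := (hCER n k t ht (by omega) hn _ V hα1).1 T hT
  have hcer := hCER n k t ht (by omega) hn _ (2 * V) hα2
  have h2 := hcer.1 T hT
  have h3 := hcer.2 (by
    intro j htj hjk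
    have hth0 : 0 ≤ th n k t j := by
      unfold th
      exact Finset.sum_nonneg fun l _ => hc0 j l
    have hμj : 0 ≤ μ j := hμ0 j hjk
    obtain ⟨θ, hθ⟩ : ∃ θ : ℝ, θ = th n k t j := ⟨_, rfl⟩
    have hθs : θ = ∑ l ∈ Finset.Icc 1 t, cc n k t j l := hθ
    rw [eval_int hn ν hjk, hν1 j (by omega), hcongr ν j hν1, ← hθ]
    rw [← hθ] at hth0
    refine ⟨fun hodd => ?_, fun hev => ?_⟩
    · -- odd
      have e1 : μ j * (∑ l ∈ Finset.Icc 1 t, (2 * cc n k t 0 l * (1 + θ) - cc n k t j l * s)) ≤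
          ∑ l ∈ Finset.Icc 1 t, (2 * cc n k t 0 l * (1 + θ) - cc n k t j l * s) * μ l := by
        rw [Finset.mul_sum]
        refine Finset.sum_le_sum fun l hl => ?_
        have e2 := hODD n k t j l hl htj hjk htk hodd hnn
        rw [← hs, ← hθ] at e2
        rw [Finset.mem_Icc] at hl
        have e3 := hμ l j hl.1 hl.2 htj hjk
        rw [mul_comm (μ j)]
        exact mul_le_mul_of_nonneg_left e3 (by linarith)
      have e4 : ∑ l ∈ Finset.Icc 1 t, (2 * cc n k t 0 l * (1 + θ) - cc n k t j l * s) =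
          2 * (1 + θ) * (s - 1) - s * θ := by
        rw [Finset.sum_sub_distrib, ← Finset.sum_mul, ← Finset.sum_mul, ← Finset.mul_sum, ← hθs]
        have : ∑ l ∈ Finset.Icc 1 t, cc n k t 0 l = s - 1 := by linarith
        rw [this]
        ring
      have e5 : ∑ l ∈ Finset.Icc 1 t, (2 * cc n k t 0 l * (1 + θ) - cc n k t j l * s) * μ l =
          2 * (1 + θ) * U - s * ∑ l ∈ Finset.Icc 1 t, cc n k t j l * μ l := by
        rw [hU, Finset.mul_sum, Finset.mul_sum, ← Finset.sum_sub_distrib]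
        exact Finset.sum_congr rfl fun l _ => by ring
      rw [e4, e5] at e1
      obtain ⟨Z, hZ⟩ : ∃ Z : ℝ, Z = ∑ l ∈ Finset.Icc 1 t, cc n k t j l * μ l := ⟨_, rfl⟩
      rw [← hZ] at e1 ⊢
      have e6 : s * (μ j + Z) ≤ s * (2 * V * (1 + θ)) := by
        have e7 : s * (2 * V * (1 + θ)) = 2 * W * (1 + θ) := by rw [← hVs]; ring
        rw [e7, hW]
        have e8 : μ j * s ≤ μ j * (2 * (1 + θ) * (s - 1) - s * θ) := by
          refine mul_le_mul_of_nonneg_left ?_ hμj
          nlinarith [mul_nonneg hth0 (by linarith : (0 : ℝ) ≤ s - 2)]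
        have e9 : 0 ≤ μ 0 * (1 + θ) := mul_nonneg hμ00 (by linarith)
        nlinarith
      exact le_of_mul_le_mul_left e6 hs0
    · -- even
      have hj2 : t + 2 ≤ j := by
        by_contra hcon
        have h2 : j = t + 1 := by omega
        rw [h2] at hev
        obtain ⟨r, hr⟩ := hev
        omega
      have hθ1 : θ ≤ 1 := by
        rw [hθ]
        exact H59.the' n k t j ht hj2 hjk hnn
      have e1 : μ j * θ ≤ ∑ l ∈ Finset.Icc 1 t, cc n k t j l * μ l := by
        rw [hθs, Finset.mul_sum]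
        refine Finset.sum_le_sum fun l hl => ?_
        rw [Finset.mem_Icc] at hl
        rw [mul_comm (μ j)]
        exact mul_le_mul_of_nonneg_left (hμ l j hl.1 hl.2 htj hjk) (hc0 j l)
      have e2 : μ j * (s - 1) ≤ U := by
        have e3 : s - 1 = ∑ l ∈ Finset.Icc 1 t, cc n k t 0 l := by linarith
        rw [hU, e3, Finset.mul_sum]
        refine Finset.sum_le_sum fun l hl => ?_
        rw [Finset.mem_Icc] at hl
        rw [mul_comm (μ j)]
        exact mul_le_mul_of_nonneg_left (hμ l j hl.1 hl.2 htj hjk) (hc0 0 l)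
      have e4 : μ j ≤ 2 * V := by
        have e5 : s * μ j ≤ s * (2 * V) := by
          have e6 : s * (2 * V) = 2 * W := by rw [← hVs]; ring
          rw [e6, hW]
          nlinarith [mul_nonneg hμj (by linarith : (0 : ℝ) ≤ s - 2)]
        exact le_of_mul_le_mul_left e5 hs0
      have e7 : μ j * (1 - θ) ≤ 2 * V * (1 - θ) :=
        mul_le_mul_of_nonneg_right e4 (by linarith)
      linarith) A hA
  rw [ip_int hIDE hn] at h1 h2 h3
  -- the difference of the two weights
  have hdiff : ∀ f : KS n k → ℝ, ∑ l ∈ Finset.range (k + 1), ν l * lw n k l f =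
      ∑ l ∈ Finset.range (k + 1), μ l * lw n k l f + W * lw n k 0 f := by
    intro f
    rw [Finset.sum_range_succ' (fun l => ν l * lw n k l f),
      Finset.sum_range_succ' (fun l => μ l * lw n k l f), hν0]
    have : ∑ l ∈ Finset.range k, ν (l + 1) * lw n k (l + 1) f =
        ∑ l ∈ Finset.range k, μ (l + 1) * lw n k (l + 1) f :=
      Finset.sum_congr rfl fun l _ => by rw [hν1 (l + 1) (by omega)]
    rw [this]
    ring
  rw [hdiff] at h2 h3
  have hS : 0 < ip (star k T) (star k T) := H24.ip_star_pos T (by omega) (by omega)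
  have hzS := hLZE n k hn (star k T)
  have hzA := hLZE n k hn (ind A)
  rw [H88.sum_star] at hzS
  rw [H88.sum_ind] at hzA
  obtain ⟨S, hSd⟩ : ∃ S : ℝ, S = ip (star k T) (star k T) := ⟨_, rfl⟩
  obtain ⟨N, hN⟩ : ∃ N : ℝ, N = (n.choose k : ℝ) := ⟨_, rfl⟩
  have hN0 : 0 < N := by
    rw [hN]
    exact_mod_cast Nat.choose_pos (by omega)
  rw [← hSd] at hS hzS h1 h2
  rw [← hN] at hzS hzA
  obtain ⟨a, ha⟩ : ∃ a : ℝ, a = (A.card : ℝ) := ⟨_, rfl⟩
  rw [← ha] at hzA h3
  obtain ⟨X, hX⟩ : ∃ X : ℝ, X = ∑ l ∈ Finset.range (k + 1), μ l * lw n k l (ind A) := ⟨_, rfl⟩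
  obtain ⟨LS, hLS⟩ : ∃ LS : ℝ, LS = lw n k 0 (star k T) := ⟨_, rfl⟩
  obtain ⟨LA, hLA⟩ : ∃ LA : ℝ, LA = lw n k 0 (ind A) := ⟨_, rfl⟩
  rw [← hX] at h3 ⊢
  rw [← hLA] at h3 hzA
  rw [← hLS] at h2 hzS
  rw [h1] at h2 ⊢
  -- W S = V N
  have e1 : W * S = V * N := by
    have e2 : W * LS = V * S := by linarith
    have e3 : W * S * S = V * N * S := by
      calc W * S * S = W * (LS * N) := by rw [hzS]; ring
        _ = W * LS * N := by ring
        _ = V * N * S := by rw [e2]; ring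
    exact mul_right_cancel₀ hS.ne' e3
  have e2 : W * LA * S = V * a ^ 2 := by
    have e3 : W * LA * S * N = V * a ^ 2 * N := by
      calc W * LA * S * N = (W * S) * (LA * N) := by ring
        _ = V * a ^ 2 * N := by rw [e1, hzA]; ring
    exact mul_right_cancel₀ hN0.ne' e3
  have e3 : X * S ≤ V * S * S := by
    have e4 : (X + W * LA) * S ≤ 2 * V * a * S := mul_le_mul_of_nonneg_right h3 hS.le
    nlinarith [mul_nonneg hV0 (sq_nonneg (S - a))]
  exact le_of_mul_le_mul_right e3 hS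

end Pool.Agent.DPL.H53
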